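import Pool.Agent.H44.MS.Basics

/-!
# HY: the hyperbola method
-/

set_option autoImplicit false

namespace Pool.Agent.H34.MS

open Finset Pool.Agent.H44.MS

theorem hy_mod {n : ℕ} (h0 : n % 2 = 1) (h : ∀ p : ℕ, p.Prime → p ∣ n → p % 4 ≠ 3) :
    n % 4 = 1 := by
  induction n using Nat.strong_induction_on with
  | _ n ih =>
    by_cases h1 : n = 1
    · rw [h1]
    · obtain ⟨p, hp, hd⟩ := Nat.exists_prime_and_dvd h1
      obtain ⟨l, hl⟩ := hd
      have hl0 : 0 < l := by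
        rcases Nat.eq_zero_or_pos l with h2 | h2
        · rw [h2, mul_zero] at hl
          omega
        · exact h2
      have hlt : l < n := by
        rw [hl]
        exact lt_mul_of_one_lt_left hl0 hp.one_lt
      have hm : (p * l) % 2 = 1 := by rw [← hl]; exact h0
      rw [Nat.mul_mod] at hm
      have hp2 : p % 2 = 1 := by
        rcases Nat.mod_two_eq_zero_or_one p with h3 | h3
        · rw [h3, zero_mul] at hm
          exact absurd hm (by norm_num)
        · exact h3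
      have hl2 : l % 2 = 1 := by
        rcases Nat.mod_two_eq_zero_or_one l with h3 | h3
        · rw [h3, mul_zero] at hm
          exact absurd hm (by norm_num)
        · exact h3
      have hp4 : p % 4 = 1 := by
        have := h p hp ⟨l, hl⟩
        omega
      have hl4 : l % 4 = 1 := ih l hlt hl2 fun r hr hd => h r hr (hd.trans ⟨p, by rw [hl, mul_comm]⟩)
      rw [hl, Nat.mul_mod, hp4, hl4]

theorem hy_q {z m : ℕ} (hz : 2 ≤ z) (hm : 0 < m) (hG : Good 0 z m) (h : m % 4 = 1 ∨ m % 8 = 2) :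
    rp z m % 4 = 1 := by
  have hs : sp z m * rp z m = m := sp_mul_rp z hm
  have hq2 : rp z m % 2 = 1 := odd_of_rough hz (rough_rp z m)
  have hpr : ∀ p : ℕ, p.Prime → p ∣ sp z m → p % 4 ≠ 3 := fun p hp hd h3 =>
    hG p hp h3 hp.pos (smooth_sp z m p hp hd) (hd.trans (sp_dvd z m))
  rcases h with h | h
  · have hs2 : sp z m % 2 = 1 := by
      rcases Nat.mod_two_eq_zero_or_one (sp z m) with h3 | h3
      · exfalso
        have h4 : (sp z m * rp z m) % 2 = 0 := by rw [Nat.mul_mod, h3, zero_mul]; rfl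
        rw [hs] at h4
        omega
      · exact h3
    have hs4 := hy_mod hs2 hpr
    have h5 : (sp z m * rp z m) % 4 = 1 := by rw [hs]; exact h
    rw [Nat.mul_mod, hs4, one_mul, Nat.mod_mod] at h5
    exact h5
  · have hs2 : sp z m % 2 = 0 := by
      rcases Nat.mod_two_eq_zero_or_one (sp z m) with h3 | h3
      · exact h3
      · exfalso
        have h4 : (sp z m * rp z m) % 2 = 1 := by rw [Nat.mul_mod, h3, hq2]
        rw [hs] at h4
        omega
    obtain ⟨t, ht⟩ : ∃ t, sp z m = 2 * t := ⟨sp z m / 2, by omega⟩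
    have h6 : 2 * (t * rp z m) = m := by rw [← mul_assoc, ← ht, hs]
    have h7 : (t * rp z m) % 4 = 1 := by omega
    have ht2 : t % 2 = 1 := by
      rcases Nat.mod_two_eq_zero_or_one t with h3 | h3
      · exfalso
        have h4 : (t * rp z m) % 2 = 0 := by rw [Nat.mul_mod, h3, zero_mul]; rfl
        omega
      · exact h3
    have ht4 := hy_mod ht2 fun p hp hd => hpr p hp (hd.trans ⟨2, by rw [ht, mul_comm]⟩)
    rw [Nat.mul_mod, ht4, one_mul, Nat.mod_mod] at h7
    exact h7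

theorem hy_RE {z E m : ℕ} (hm : 0 < m) :
    RE z E m = ∑ e ∈ (rp z m).divisors, ic (e ≤ E) * chi e := by
  unfold RE
  have hsub : (rp z m).divisors ⊆ m.divisors := Nat.divisors_subset_of_dvd hm.ne' (rp_dvd z m)
  rw [← Finset.sum_subset hsub]
  · refine Finset.sum_congr rfl fun e he => ?_
    have h1 : Rough z e := rough_dvd (rough_rp z m) (Nat.dvd_of_mem_divisors he)
    rw [ic_congr (show (Rough z e ∧ e ≤ E) ↔ e ≤ E from ⟨fun h => h.2, fun h => ⟨h1, h⟩⟩)]
  · intro e he hn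
    have h1 : ¬ Rough z e := fun h => hn (Nat.mem_divisors.2
      ⟨(dvd_rp h hm).1 (Nat.dvd_of_mem_divisors he), (rp_pos z m).ne'⟩)
    rw [ic_neg (fun h => h1 h.1), zero_mul]

theorem pf_HY : T_HY := by
  intro z E m hz hm hG h
  have hq := hy_q hz hm hG h
  have e1 : rr (rp z m) = ∑ x ∈ (rp z m).divisorsAntidiagonal, chi x.1 := by
    unfold rr
    exact (Nat.sum_divisorsAntidiagonal (fun e _ => chi e)).symm
  have e2 : RE z E m = ∑ x ∈ (rp z m).divisorsAntidiagonal, ic (x.1 ≤ E) * chi x.1 := by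
    rw [hy_RE hm]
    exact (Nat.sum_divisorsAntidiagonal (fun e _ => ic (e ≤ E) * chi e)).symm
  have e3 : RE z E m = ∑ x ∈ (rp z m).divisorsAntidiagonal, ic (x.2 ≤ E) * chi x.2 := by
    rw [hy_RE hm]
    exact (Nat.sum_divisorsAntidiagonal' (fun _ e => ic (e ≤ E) * chi e)).symm
  have e4 : 2 * RE z E m + mid z E m - bth z E m =
      ∑ x ∈ (rp z m).divisorsAntidiagonal, ic (x.1 ≤ E) * chi x.1 +
      ∑ x ∈ (rp z m).divisorsAntidiagonal, ic (x.2 ≤ E) * chi x.2 +
      ∑ x ∈ (rp z m).divisorsAntidiagonal, ic (E < x.1 ∧ E < x.2) * chi x.1 -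
      ∑ x ∈ (rp z m).divisorsAntidiagonal, ic (x.1 ≤ E ∧ x.2 ≤ E) * chi x.1 := by
    rw [← e2, ← e3]
    unfold mid bth
    ring
  rw [e4, e1, ← Finset.sum_add_distrib, ← Finset.sum_add_distrib, ← Finset.sum_sub_distrib]
  refine Finset.sum_congr rfl fun x hx => ?_
  have hx1 : (x.1 * x.2) % 4 = 1 := by rw [(Nat.mem_divisorsAntidiagonal.1 hx).1]; exact hq
  rw [← chi_eq_of_mul hx1]
  by_cases h1 : x.1 ≤ E
  · by_cases h2 : x.2 ≤ E
    · rw [ic_pos h1, ic_pos h2, ic_neg (fun h : E < x.1 ∧ E < x.2 => absurd h1 (not_le.2 h.1)),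
        ic_pos (⟨h1, h2⟩ : x.1 ≤ E ∧ x.2 ≤ E)]
      ring
    · rw [ic_pos h1, ic_neg h2, ic_neg (fun h : E < x.1 ∧ E < x.2 => absurd h1 (not_le.2 h.1)),
        ic_neg (fun h : x.1 ≤ E ∧ x.2 ≤ E => h2 h.2)]
      ring
  · by_cases h2 : x.2 ≤ E
    · rw [ic_neg h1, ic_pos h2, ic_neg (fun h : E < x.1 ∧ E < x.2 => absurd h2 (not_le.2 h.2)),
        ic_neg (fun h : x.1 ≤ E ∧ x.2 ≤ E => h1 h.1)]
      ring
    · rw [ic_neg h1, ic_neg h2, ic_pos (⟨not_le.1 h1, not_le.1 h2⟩ : E < x.1 ∧ E < x.2),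
        ic_neg (fun h : x.1 ≤ E ∧ x.2 ≤ E => h1 h.1)]
      ring

end Pool.Agent.H34.MS
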